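import Pool.Agent.L7h71.GC.Stm

/-!
# Project GC: part GEN
-/

set_option autoImplicit false

namespace Pool.Agent.L7h75.GC

open Set Function FirstOrder FirstOrder.Language
open Pool.Agent.L7h71.GC

theorem gen_equiv {L : FirstOrder.Language.{0, 0}} {A B : Type} [L.Structure A] [L.Structure B]
    (v : ℕ → A) (v' : ℕ → B) (h1 : ∀ p, ∃ t : L.Term ℕ, t.realize v = p)
    (h2 : ∀ p, ∃ t : L.Term ℕ, t.realize v' = p)
    (h3 : ∀ φ : L.Formula ℕ, φ.IsQF → (φ.Realize v ↔ φ.Realize v')) :
    ∃ f : A ≃[L] B, ∀ i, f (v i) = v' i := by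
  choose T hT using h1
  have key : ∀ t t' : L.Term ℕ, t.realize v = t'.realize v ↔ t.realize v' = t'.realize v' := by
    intro t t'
    have h := h3 (t.equal t') (BoundedFormula.IsAtomic.equal _ _).isQF
    rwa [Formula.realize_equal, Formula.realize_equal] at h
  let f : A → B := fun p => (T p).realize v'
  have hf : ∀ t : L.Term ℕ, f (t.realize v) = t.realize v' := by
    intro t
    exact (key _ _).1 (hT _)
  have hinj : Injective f := by
    intro p p' h
    have h4 := (key (T p) (T p')).2 h
    rwa [hT, hT] at h4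
  have hsur : Surjective f := by
    intro q
    obtain ⟨t, rfl⟩ := h2 q
    exact ⟨_, hf t⟩
  refine ⟨{ toEquiv := _root_.Equiv.ofBijective f ⟨hinj, hsur⟩
            map_fun' := ?_
            map_rel' := ?_ }, ?_⟩
  · intro n F x
    show f (Structure.funMap F x) = Structure.funMap F (f ∘ x)
    have h4 : Structure.funMap F x = (Term.func F fun j => T (x j)).realize v := by
      rw [Term.realize]
      congr 1
      funext j
      exact (hT _).symm
    rw [h4, hf, Term.realize]
    rfl
  · intro n R x
    show Structure.RelMap R (f ∘ x) ↔ Structure.RelMap R x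
    have h4 := h3 (R.formula fun j => T (x j)) (BoundedFormula.IsAtomic.rel _ _).isQF
    rw [Formula.realize_rel, Formula.realize_rel] at h4
    have h5 : (fun j => (T (x j)).realize v) = x := funext fun j => hT _
    rw [h5] at h4
    exact h4.symm
  · intro i
    exact hf (Term.var i)

theorem s_GEN : S_GEN := by
  intro L S S' v v' h1 h2 h3
  obtain ⟨f, hf⟩ := @gen_equiv L ℕ ℕ S S' v v' h1 h2 h3
  exact ⟨f, hf⟩

end Pool.Agent.L7h75.GC
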